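import Mathlib

/-!
MP_d16438_co, SchrammBound: the geometric part (centre, cliques, the push direction).
-/

set_option autoImplicit false

namespace Pool.Dia50c

open scoped BigOperators RealInnerProductSpace

variable {E : Type*} [NormedAddCommGroup E] [InnerProductSpace ℝ E]

/-- A finite set of diameter at most `1` lies in a ball of radius `√(1/2)`. -/
theorem exists_centre (P : Finset E) (hne : P.Nonempty)
    (h : ∀ x ∈ P, ∀ y ∈ P, dist x y ≤ 1) : ∃ c : E, ∀ x ∈ P, ‖x - c‖ ^ 2 ≤ 1 / 2 := by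
  classical
  obtain ⟨p0, hp0⟩ := hne
  let g : (P → ℝ) → ℝ := fun l => ∑ i, l i * ‖(i : E)‖ ^ 2 - ‖∑ i, l i • (i : E)‖ ^ 2
  have hg : Continuous g := by
    refine Continuous.sub ?_ ?_
    · exact continuous_finset_sum _ (fun i _ => (continuous_apply i).mul continuous_const)
    · refine Continuous.pow (Continuous.norm ?_) 2
      exact continuous_finset_sum _ (fun i _ => (continuous_apply i).smul continuous_const)
  have hc : IsCompact (stdSimplex ℝ P) := isCompact_stdSimplex ℝ P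
  obtain ⟨l, hl, hmax⟩ := hc.exists_isMaxOn
    ⟨_, single_mem_stdSimplex ℝ (⟨p0, hp0⟩ : P)⟩ hg.continuousOn
  set c : E := ∑ i, l i • (i : E) with hcdef
  set A : ℝ := ∑ i, l i * ‖(i : E)‖ ^ 2 with hA
  have hsum : ∑ i, l i = 1 := hl.2
  have hl0 : ∀ i, 0 ≤ l i := hl.1
  -- value of g at the maximum
  have hval : A - ‖c‖ ^ 2 ≤ 1 / 2 := by
    have h1 : ∀ i : P, ∑ j : P, l j * ‖(i : E) - j‖ ^ 2
        = ‖(i : E)‖ ^ 2 - 2 * ⟪(i : E), c⟫ + A := by
      intro i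
      have : ∀ j : P, l j * ‖(i : E) - j‖ ^ 2
          = l j * ‖(i : E)‖ ^ 2 - 2 * (l j * ⟪(i : E), (j : E)⟫) + l j * ‖(j : E)‖ ^ 2 := by
        intro j
        rw [norm_sub_sq_real]; ring
      rw [Finset.sum_congr rfl (fun j _ => this j), Finset.sum_add_distrib,
        Finset.sum_sub_distrib, ← Finset.sum_mul, hsum, one_mul, ← Finset.mul_sum, hcdef,
        inner_sum]
      simp only [real_inner_smul_right]
      rw [hA]
    have h2 : ∑ i : P, l i * ∑ j : P, l j * ‖(i : E) - j‖ ^ 2 = 2 * A - 2 * ‖c‖ ^ 2 := by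
      simp only [h1]
      have : ∀ i : P, l i * (‖(i : E)‖ ^ 2 - 2 * ⟪(i : E), c⟫ + A)
          = l i * ‖(i : E)‖ ^ 2 - 2 * (l i * ⟪(i : E), c⟫) + l i * A := by
        intro i; ring
      rw [Finset.sum_congr rfl (fun j _ => this j), Finset.sum_add_distrib,
        Finset.sum_sub_distrib, ← Finset.sum_mul, hsum, one_mul, ← Finset.mul_sum]
      have h3 : ∑ i : P, l i * ⟪(i : E), c⟫ = ‖c‖ ^ 2 := by
        rw [← real_inner_self_eq_norm_sq]
        conv_rhs => rw [hcdef, sum_inner]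
        simp only [real_inner_smul_left]
        rw [hcdef]
      rw [h3, ← hA]; ring
    have h4 : ∑ i : P, l i * ∑ j : P, l j * ‖(i : E) - j‖ ^ 2 ≤ 1 := by
      calc ∑ i : P, l i * ∑ j : P, l j * ‖(i : E) - j‖ ^ 2
          ≤ ∑ i : P, l i * 1 := by
            refine Finset.sum_le_sum (fun i _ => mul_le_mul_of_nonneg_left ?_ (hl0 i))
            calc ∑ j : P, l j * ‖(i : E) - j‖ ^ 2 ≤ ∑ j : P, l j * 1 := by
                  refine Finset.sum_le_sum (fun j _ => mul_le_mul_of_nonneg_left ?_ (hl0 j))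
                  have := h i i.2 j j.2
                  rw [dist_eq_norm] at this
                  have h0 := norm_nonneg ((i : E) - j)
                  nlinarith
              _ = 1 := by simp only [mul_one]; exact hsum
        _ = 1 := by simp only [mul_one]; exact hsum
    linarith
  refine ⟨c, fun x hx => ?_⟩
  -- first order condition
  have hfo : ∀ t : ℝ, 0 < t → t ≤ 1 →
      ‖x‖ ^ 2 - A + 2 * ‖c‖ ^ 2 - 2 * ⟪c, x⟫ ≤ t * ‖x - c‖ ^ 2 := by
    intro t ht0 ht1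
    let s : P → ℝ := Pi.single (⟨x, hx⟩ : P) (1 : ℝ)
    let m : P → ℝ := (1 - t) • l + t • s
    have hmem : m ∈ stdSimplex ℝ P :=
      (convex_stdSimplex ℝ P) hl (single_mem_stdSimplex ℝ _) (by linarith) ht0.le (by ring)
    have h1 : g m ≤ g l := hmax hmem
    have e1 : ∑ i : P, m i * ‖(i : E)‖ ^ 2
        = (1 - t) * A + t * ‖x‖ ^ 2 := by
      simp only [m, s, Pi.add_apply, Pi.smul_apply, smul_eq_mul, add_mul, Finset.sum_add_distrib]
      congr 1
      · rw [hA, Finset.mul_sum]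
        exact Finset.sum_congr rfl (fun i _ => by ring)
      · rw [Finset.sum_eq_single (⟨x, hx⟩ : P)]
        · simp
        · intro b _ hb
          simp [Pi.single_eq_of_ne hb]
        · intro hb
          exact absurd (Finset.mem_univ _) hb
    have e2 : ∑ i : P, m i • (i : E)
        = (1 - t) • c + t • x := by
      simp only [m, s, Pi.add_apply, Pi.smul_apply, smul_eq_mul, add_smul, Finset.sum_add_distrib]
      congr 1
      · rw [hcdef, Finset.smul_sum]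
        exact Finset.sum_congr rfl (fun i _ => by rw [mul_smul])
      · rw [Finset.sum_eq_single (⟨x, hx⟩ : P)]
        · simp
        · intro b _ hb
          simp [Pi.single_eq_of_ne hb]
        · intro hb
          exact absurd (Finset.mem_univ _) hb
    have h2 : (1 - t) * A + t * ‖x‖ ^ 2 - ‖(1 - t) • c + t • x‖ ^ 2 ≤ A - ‖c‖ ^ 2 := by
      have := h1
      simp only [g] at this
      rw [e1, e2] at this
      exact this
    have e3 : ‖(1 - t) • c + t • x‖ ^ 2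
        = (1 - t) ^ 2 * ‖c‖ ^ 2 + 2 * ((1 - t) * t * ⟪c, x⟫) + t ^ 2 * ‖x‖ ^ 2 := by
      rw [norm_add_sq_real, norm_smul, norm_smul, real_inner_smul_left, real_inner_smul_right,
        mul_pow, mul_pow, Real.norm_eq_abs, Real.norm_eq_abs, sq_abs, sq_abs]
      ring
    have e4 : ‖x - c‖ ^ 2 = ‖x‖ ^ 2 - 2 * ⟪c, x⟫ + ‖c‖ ^ 2 := by
      rw [norm_sub_sq_real, real_inner_comm]
    rw [e3] at h2
    have h3 : t * (‖x‖ ^ 2 - A + 2 * ‖c‖ ^ 2 - 2 * ⟪c, x⟫) ≤ t * (t * ‖x - c‖ ^ 2) := by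
      rw [e4]; nlinarith
    exact le_of_mul_le_mul_left h3 ht0
  have hL : ‖x‖ ^ 2 - A + 2 * ‖c‖ ^ 2 - 2 * ⟪c, x⟫ ≤ 0 := by
    by_contra hcon
    push Not at hcon
    set L := ‖x‖ ^ 2 - A + 2 * ‖c‖ ^ 2 - 2 * ⟪c, x⟫ with hLdef
    set Q := ‖x - c‖ ^ 2 with hQ
    have hQ0 : 0 ≤ Q := by positivity
    have hden : 0 < L + Q + 1 := by linarith
    have ht0 : 0 < L / (L + Q + 1) := by positivity
    have ht1 : L / (L + Q + 1) ≤ 1 := by rw [div_le_one hden]; linarith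
    have := hfo _ ht0 ht1
    rw [div_mul_eq_mul_div, le_div_iff₀ hden] at this
    nlinarith
  have e4 : ‖x - c‖ ^ 2 = ‖x‖ ^ 2 - 2 * ⟪c, x⟫ + ‖c‖ ^ 2 := by
    rw [norm_sub_sq_real, real_inner_comm]
  linarith

/-- Sums of squared distances between two finite sets. -/
theorem sum_cross (S T : Finset E) :
    ∑ x ∈ S, ∑ y ∈ T, ‖x - y‖ ^ 2
      = T.card * ∑ x ∈ S, ‖x‖ ^ 2 - 2 * ⟪∑ x ∈ S, x, ∑ y ∈ T, y⟫ + S.card * ∑ y ∈ T, ‖y‖ ^ 2 := by
  have h1 : ∀ x ∈ S, ∑ y ∈ T, ‖x - y‖ ^ 2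
      = T.card * ‖x‖ ^ 2 - 2 * ⟪x, ∑ y ∈ T, y⟫ + ∑ y ∈ T, ‖y‖ ^ 2 := by
    intro x _
    simp only [norm_sub_sq_real, Finset.sum_add_distrib, Finset.sum_sub_distrib,
      Finset.sum_const, nsmul_eq_mul, ← Finset.mul_sum, inner_sum]
  rw [Finset.sum_congr rfl h1]
  simp only [Finset.sum_add_distrib, Finset.sum_sub_distrib, Finset.sum_const, nsmul_eq_mul,
    ← Finset.mul_sum, sum_inner]

theorem sum_self (S : Finset E) (hS : ∀ x ∈ S, ∀ y ∈ S, x ≠ y → dist x y = 1) :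
    ∑ x ∈ S, ∑ y ∈ S, ‖x - y‖ ^ 2 = S.card * (S.card - 1 : ℝ) := by
  classical
  have h1 : ∀ x ∈ S, ∑ y ∈ S, ‖x - y‖ ^ 2 = (S.card - 1 : ℝ) := by
    intro x hx
    rw [← Finset.add_sum_erase S _ hx]
    have : ∀ y ∈ S.erase x, ‖x - y‖ ^ 2 = (1 : ℝ) := by
      intro y hy
      have := hS x hx y (Finset.mem_of_mem_erase hy) (Finset.ne_of_mem_erase hy).symm
      rw [dist_eq_norm] at this
      rw [this]; norm_num
    rw [Finset.sum_congr rfl this, Finset.sum_const, Finset.card_erase_of_mem hx]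
    have hpos : 1 ≤ S.card := Finset.card_pos.mpr ⟨x, hx⟩
    simp [Nat.cast_sub hpos]
  rw [Finset.sum_congr rfl h1, Finset.sum_const, nsmul_eq_mul]

/-- The sums of two `k`-cliques of a set of diameter `1` are at distance at most `√k`. -/
theorem clique_sum (S T : Finset E) (k : ℕ) (hSk : S.card = k) (hTk : T.card = k)
    (hS : ∀ x ∈ S, ∀ y ∈ S, x ≠ y → dist x y = 1)
    (hT : ∀ x ∈ T, ∀ y ∈ T, x ≠ y → dist x y = 1)
    (hST : ∀ x ∈ S, ∀ y ∈ T, dist x y ≤ 1) :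
    ‖∑ x ∈ S, x - ∑ y ∈ T, y‖ ^ 2 ≤ k := by
  have h1 := sum_cross S S
  have h2 := sum_cross T T
  have h3 := sum_cross S T
  rw [sum_self S hS] at h1
  rw [sum_self T hT] at h2
  have h4 : ∑ x ∈ S, ∑ y ∈ T, ‖x - y‖ ^ 2 ≤ (k : ℝ) * k := by
    calc ∑ x ∈ S, ∑ y ∈ T, ‖x - y‖ ^ 2 ≤ ∑ x ∈ S, ∑ y ∈ T, (1 : ℝ) := by
          refine Finset.sum_le_sum (fun x hx => Finset.sum_le_sum (fun y hy => ?_))
          have := hST x hx y hy
          rw [dist_eq_norm] at this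
          have h0 := norm_nonneg (x - y)
          nlinarith
      _ = (k : ℝ) * k := by simp [hSk, hTk]
  rw [real_inner_self_eq_norm_sq] at h1 h2
  rw [hSk] at h1 h3
  rw [hTk] at h2 h3
  rw [norm_sub_sq_real]
  nlinarith

/-- The push: `x₀` has inner product at least `‖x₀‖ (√2/2 - 4 η)` with `x - y`. -/
theorem push (x0 x y : E) (η : ℝ) (hη : 0 ≤ η) (hη1 : η ≤ 1 / 16) (hx0 : 1 / 4 ≤ ‖x0‖)
    (hx : dist x x0 ≤ η) (hy : ‖y‖ ^ 2 ≤ 1 / 2) (hxy : dist x y = 1) :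
    ‖x0‖ * (Real.sqrt 2 / 2 - 4 * η) ≤ ⟪x0, x - y⟫ := by
  set q := Real.sqrt 2 / 2 with hq
  have hq2 : q ^ 2 = 1 / 2 := by
    rw [hq, div_pow, Real.sq_sqrt (by norm_num)]; norm_num
  have hq0 : 0 < q := by positivity
  have hq1 : q ≤ 3 / 4 := by nlinarith
  have hyq : ‖y‖ ≤ q := by
    have := norm_nonneg y
    nlinarith
  have h1 : ‖x0 - (x - y)‖ ≤ q + η := by
    have e : x0 - (x - y) = y + (x0 - x) := by abel
    rw [e]
    refine (norm_add_le _ _).trans ?_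
    rw [← dist_eq_norm x0 x, dist_comm]
    linarith
  have h2 : ‖x0 - (x - y)‖ ^ 2 ≤ (q + η) ^ 2 := by
    have := norm_nonneg (x0 - (x - y))
    nlinarith
  have h3 : ‖x0 - (x - y)‖ ^ 2 = ‖x0‖ ^ 2 - 2 * ⟪x0, x - y⟫ + 1 := by
    rw [norm_sub_sq_real, ← dist_eq_norm x y, hxy]; norm_num
  rw [h3] at h2
  nlinarith [sq_nonneg (‖x0‖ - q), mul_nonneg hη (sub_nonneg.mpr hx0)]

/-- A point of a clique is not close to the centre. -/
theorem far_of_partner (x y : E) (hx : ‖y‖ ^ 2 ≤ 1 / 2) (hxy : dist x y = 1) : 1 / 4 ≤ ‖x‖ := by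
  have h1 : ‖y‖ ^ 2 = ‖x‖ ^ 2 - 2 * ⟪x, x - y⟫ + 1 := by
    have e : y = x - (x - y) := by abel
    conv_lhs => rw [e]
    rw [norm_sub_sq_real, ← dist_eq_norm x y, hxy]; norm_num
  have h2 : ⟪x, x - y⟫ ≤ ‖x‖ := by
    have := real_inner_le_norm x (x - y)
    rw [← dist_eq_norm x y, hxy, mul_one] at this
    exact this
  have h3 := norm_nonneg x
  by_contra hcon
  push Not at hcon
  nlinarith

end Pool.Dia50c
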