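import Mathlib
import Pool.Agent.Dia50c.Geo

/-!
MP_d16438_co, SchrammBound: for every direction one of two mirror images is good.
-/

set_option autoImplicit false

namespace Pool.Dia50c

open scoped BigOperators RealInnerProductSpace

variable {E : Type*} [NormedAddCommGroup E] [InnerProductSpace ℝ E]

/-- `S` is an `r`-clique of the unit distance graph on `P`. -/
def Clq (r : ℕ) (P S : Finset E) : Prop :=
  S ⊆ P ∧ S.card = r ∧ ∀ x ∈ S, ∀ y ∈ S, x ≠ y → dist x y = 1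

/-- The directions `z` in which no point of `P` near `x₀` is the lowest point of a clique. -/
def Good (r : ℕ) (P : Finset E) (η : ℝ) (x0 : E) : Set E :=
  {z | ∀ x ∈ P, dist x x0 ≤ η → ∀ S, Clq r P S → x ∈ S → ∃ y ∈ S, ⟪z, y⟫ < ⟪z, x⟫}

theorem numeric (k d : ℕ) (hk : 1 ≤ k) (hd : 1 ≤ d) (t : ℝ)
    (ht : Real.sqrt 2 / 2 / Real.sqrt k + 1 / d ≤ t) :
    1 / (2 * Real.sqrt k) < t * (Real.sqrt 2 / 2 - 4 * (1 / (16 * d))) - 1 / (16 * d) := by
  set q := Real.sqrt 2 / 2 with hq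
  have hq2 : q ^ 2 = 1 / 2 := by
    rw [hq, div_pow, Real.sq_sqrt (by norm_num)]; norm_num
  have hq0 : 0 < q := by positivity
  have hq1 : 7 / 10 < q := by nlinarith
  have hk1 : 1 ≤ Real.sqrt k := by
    rw [Real.one_le_sqrt]; exact_mod_cast hk
  set s := Real.sqrt k with hs
  have hs0 : 0 < s := by linarith
  have hd0 : (0 : ℝ) < d := by exact_mod_cast hd
  set δ : ℝ := 1 / d with hδ
  have hδ0 : 0 < δ := by positivity
  have hδ1 : δ ≤ 1 := by
    rw [hδ, div_le_one hd0]; exact_mod_cast hd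
  have e1 : (1 : ℝ) / (16 * d) = δ / 16 := by rw [hδ]; field_simp
  rw [e1]
  set a := q / s with ha
  have ha0 : 0 < a := by positivity
  have haq : a ≤ q := by
    rw [ha, div_le_iff₀ hs0]; nlinarith
  have e2 : 1 / (2 * s) = a * q := by
    rw [ha, div_mul_eq_mul_div, ← sq, hq2]; field_simp
  rw [e2]
  have h3 : 0 ≤ q - 4 * (δ / 16) := by linarith
  have h4 : (a + δ) * (q - 4 * (δ / 16)) ≤ t * (q - 4 * (δ / 16)) :=
    mul_le_mul_of_nonneg_right ht h3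
  nlinarith [mul_pos hδ0 hδ0, mul_nonneg hδ0.le (sub_nonneg.mpr haq),
    mul_nonneg hδ0.le (sub_nonneg.mpr hδ1)]

/-- If `t e + w` is not good then some `k`-clique of `P` lies high in direction `w`. -/
theorem high_clique (P : Finset E) (hP : ∀ x ∈ P, ‖x‖ ^ 2 ≤ 1 / 2) (k d : ℕ) (hk : 1 ≤ k)
    (hd : 1 ≤ d) (x0 e w : E) (hx0 : 1 / 4 ≤ ‖x0‖) (hxe : x0 = ‖x0‖ • e)
    (hw : ⟪w, e⟫ = 0) (hw1 : ‖w‖ ≤ 1) (t : ℝ)
    (ht : Real.sqrt 2 / 2 / Real.sqrt k + 1 / d ≤ t)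
    (hbad : t • e + w ∉ Good (k + 1) P (1 / (16 * d)) x0) :
    ∃ T, Clq k P T ∧ Real.sqrt k < 2 * ⟪w, ∑ y ∈ T, y⟫ := by
  classical
  simp only [Good, Set.mem_ofPred_eq, not_forall, not_exists, not_and, not_lt] at hbad
  obtain ⟨x, hxP, hxx0, S, hS, hxS, hlow⟩ := hbad
  have hd0 : (0 : ℝ) < d := by exact_mod_cast hd
  have hη0 : (0 : ℝ) ≤ 1 / (16 * d) := by positivity
  have hη1 : (1 : ℝ) / (16 * d) ≤ 1 / 16 := by
    apply one_div_le_one_div_of_le (by norm_num)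
    have : (1 : ℝ) ≤ d := by exact_mod_cast hd
    linarith
  have hnum := numeric k d hk hd t ht
  set η : ℝ := 1 / (16 * d) with hη
  set q := Real.sqrt 2 / 2 with hq
  have hq2 : q ^ 2 = 1 / 2 := by
    rw [hq, div_pow, Real.sq_sqrt (by norm_num)]; norm_num
  have hq0 : 0 < q := by positivity
  have hq1 : 7 / 10 < q := by nlinarith
  have ht0 : 0 ≤ t := by
    have h1 : 0 ≤ q / Real.sqrt k := by positivity
    have h2 : (0 : ℝ) ≤ 1 / d := by positivity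
    linarith
  have hx0pos : 0 < ‖x0‖ := by linarith
  have hwx0 : ⟪w, x0⟫ = 0 := by rw [hxe, real_inner_smul_right, hw, mul_zero]
  have hwx : -η ≤ ⟪w, x⟫ := by
    have h1 : ⟪w, x⟫ = ⟪w, x - x0⟫ := by rw [inner_sub_right, hwx0, sub_zero]
    have h2 := abs_real_inner_le_norm w (x - x0)
    have h3 : ‖x - x0‖ ≤ η := by rw [← dist_eq_norm]; exact hxx0
    have h4 : ‖w‖ * ‖x - x0‖ ≤ 1 * η :=
      mul_le_mul hw1 h3 (norm_nonneg _) (by norm_num)
    rw [h1]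
    have := (abs_le.mp (h2.trans h4)).1
    linarith
  refine ⟨S.erase x, ⟨(Finset.erase_subset _ _).trans hS.1, ?_, ?_⟩, ?_⟩
  · rw [Finset.card_erase_of_mem hxS, hS.2.1]; rfl
  · intro a ha b hb hab
    exact hS.2.2 a (Finset.mem_of_mem_erase ha) b (Finset.mem_of_mem_erase hb) hab
  · have hk0 : (0 : ℝ) < k := by exact_mod_cast hk
    have hone : ∀ y ∈ S.erase x, 1 / (2 * Real.sqrt k) < ⟪w, y⟫ := by
      intro y hy
      have hyS := Finset.mem_of_mem_erase hy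
      have hyx := Finset.ne_of_mem_erase hy
      have hdxy := hS.2.2 x hxS y hyS hyx.symm
      have hp := push x0 x y η hη0 hη1 hx0 hxx0 (hP y (hS.1 hyS)) hdxy
      have hp2 : q - 4 * η ≤ ⟪e, x - y⟫ := by
        have : ⟪x0, x - y⟫ = ‖x0‖ * ⟪e, x - y⟫ := by
          conv_lhs => rw [hxe]
          rw [real_inner_smul_left]
        rw [this] at hp
        exact le_of_mul_le_mul_left hp hx0pos
      have hl := hlow y hyS
      rw [inner_add_left, inner_add_left, real_inner_smul_left, real_inner_smul_left] at hl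
      rw [inner_sub_right] at hp2
      have h5 : t * (q - 4 * η) ≤ t * (⟪e, x⟫ - ⟪e, y⟫) := mul_le_mul_of_nonneg_left hp2 ht0
      nlinarith
    have hcard : (S.erase x).card = k := by
      rw [Finset.card_erase_of_mem hxS, hS.2.1]; rfl
    rw [inner_sum]
    have hne : (S.erase x).Nonempty := by
      rw [← Finset.card_pos, hcard]; exact hk
    have hsum : ∑ _y ∈ S.erase x, 1 / (2 * Real.sqrt k) < ∑ y ∈ S.erase x, ⟪w, y⟫ :=
      Finset.sum_lt_sum_of_nonempty hne hone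
    rw [Finset.sum_const, hcard, nsmul_eq_mul] at hsum
    have hsk : (k : ℝ) * (1 / (2 * Real.sqrt k)) = Real.sqrt k / 2 := by
      have h1 : Real.sqrt k * Real.sqrt k = k := Real.mul_self_sqrt hk0.le
      have h2 : 0 < Real.sqrt k := Real.sqrt_pos.mpr hk0
      field_simp
      nlinarith
    rw [hsk] at hsum
    linarith

/-- One of the mirror images `t e + w`, `t e - w` is good. -/
theorem dichotomy (P : Finset E) (hP : ∀ x ∈ P, ‖x‖ ^ 2 ≤ 1 / 2)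
    (hd1 : ∀ x ∈ P, ∀ y ∈ P, dist x y ≤ 1) (k d : ℕ) (hk : 1 ≤ k)
    (hd : 1 ≤ d) (x0 e w : E) (hx0 : 1 / 4 ≤ ‖x0‖) (hxe : x0 = ‖x0‖ • e)
    (hw : ⟪w, e⟫ = 0) (hw1 : ‖w‖ ≤ 1) (t : ℝ)
    (ht : Real.sqrt 2 / 2 / Real.sqrt k + 1 / d ≤ t) :
    t • e + w ∈ Good (k + 1) P (1 / (16 * d)) x0 ∨
      t • e + -w ∈ Good (k + 1) P (1 / (16 * d)) x0 := by
  by_contra hcon
  push Not at hcon
  obtain ⟨T, hT, h1⟩ := high_clique P hP k d hk hd x0 e w hx0 hxe hw hw1 t ht hcon.1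
  obtain ⟨T', hT', h2⟩ := high_clique P hP k d hk hd x0 e (-w) hx0 hxe
    (by rw [inner_neg_left, hw, neg_zero]) (by rw [norm_neg]; exact hw1) t ht hcon.2
  have h3 := clique_sum T T' k hT.2.1 hT'.2.1 hT.2.2 hT'.2.2
    (fun x hx y hy => hd1 x (hT.1 hx) y (hT'.1 hy))
  rw [inner_neg_left] at h2
  have h4 : ⟪w, ∑ y ∈ T, y - ∑ y ∈ T', y⟫ ≤ Real.sqrt k := by
    have h5 := real_inner_le_norm w (∑ y ∈ T, y - ∑ y ∈ T', y)
    have h6 : ‖∑ y ∈ T, y - ∑ y ∈ T', y‖ ≤ Real.sqrt k := by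
      rw [← Real.sqrt_sq (norm_nonneg (∑ y ∈ T, y - ∑ y ∈ T', y))]
      exact Real.sqrt_le_sqrt h3
    calc ⟪w, ∑ y ∈ T, y - ∑ y ∈ T', y⟫ ≤ ‖w‖ * ‖∑ y ∈ T, y - ∑ y ∈ T', y‖ := h5
      _ ≤ 1 * Real.sqrt k := mul_le_mul hw1 h6 (norm_nonneg _) (by norm_num)
      _ = Real.sqrt k := one_mul _
  rw [inner_sub_right] at h4
  linarith

end Pool.Dia50c
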