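import Mathlib

/-!
MP_d16438_co, SchrammBound: few points hit all sets of relative measure at least `δ`.
-/

set_option autoImplicit false

namespace Pool.Dia50c

open MeasureTheory
open scoped BigOperators ENNReal

theorem one_step {α : Type*} [MeasurableSpace α] (μ : Measure α) (B : Set α) (hB0 : μ B ≠ 0)
    (hBt : μ B ≠ ⊤) (hBm : MeasurableSet B) {ι : Type*} [DecidableEq ι] (J : Finset ι)
    (G : ι → Set α) (hG : ∀ i ∈ J, MeasurableSet (G i)) (hsub : ∀ i ∈ J, G i ⊆ B) (δ : ℝ)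
    (hδ0 : 0 ≤ δ) (hδ : ∀ i ∈ J, ENNReal.ofReal δ * μ B ≤ μ (G i)) :
    ∃ p : α, δ * J.card ≤ (open Classical in (J.filter (fun i => p ∈ G i)).card : ℝ) := by
  classical
  let f : α → ℝ≥0∞ := fun a => ∑ i ∈ J, (G i).indicator (fun _ => (1 : ℝ≥0∞)) a
  have hf : ∫⁻ a in B, f a ∂μ = ∑ i ∈ J, μ (G i) := by
    simp only [f]
    rw [lintegral_finset_sum' _ (fun i hi => (measurable_const.indicator (hG i hi)).aemeasurable)]
    refine Finset.sum_congr rfl (fun i hi => ?_)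
    rw [lintegral_indicator (hG i hi), lintegral_const, one_mul,
      Measure.restrict_restrict (hG i hi), Measure.restrict_apply_univ,
      Set.inter_eq_left.mpr (hsub i hi)]
  have hfin : ∫⁻ a in B, f a ∂μ ≠ ⊤ := by
    rw [hf]
    refine (ENNReal.sum_lt_top.mpr (fun i hi => ?_)).ne
    exact (measure_mono (hsub i hi)).trans_lt (lt_top_iff_ne_top.mpr hBt)
  obtain ⟨p, _, hp⟩ := exists_setLAverage_le hB0 hBm.nullMeasurableSet hfin
  refine ⟨p, ?_⟩
  have h1 : (J.card : ℝ≥0∞) * ENNReal.ofReal δ ≤ f p := by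
    refine le_trans ?_ hp
    rw [setLAverage_eq, hf, ENNReal.le_div_iff_mul_le (Or.inl hB0) (Or.inl hBt)]
    calc (J.card : ℝ≥0∞) * ENNReal.ofReal δ * μ B = ∑ _i ∈ J, ENNReal.ofReal δ * μ B := by
          rw [Finset.sum_const, nsmul_eq_mul, mul_assoc]
      _ ≤ ∑ i ∈ J, μ (G i) := Finset.sum_le_sum hδ
  have h2 : f p = ((J.filter (fun i => p ∈ G i)).card : ℝ≥0∞) := by
    simp only [f, Set.indicator_apply]
    rw [← Finset.sum_filter, Finset.sum_const, nsmul_eq_mul, mul_one]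
  rw [h2] at h1
  have h3 := ENNReal.toReal_mono (ENNReal.natCast_ne_top _) h1
  rw [ENNReal.toReal_mul, ENNReal.toReal_natCast, ENNReal.toReal_ofReal hδ0,
    ENNReal.toReal_natCast] at h3
  linarith

theorem hitting {α : Type*} [MeasurableSpace α] (μ : Measure α) (B : Set α) (hB0 : μ B ≠ 0)
    (hBt : μ B ≠ ⊤) (hBm : MeasurableSet B) {ι : Type*} (I : Finset ι)
    (G : ι → Set α) (hG : ∀ i ∈ I, MeasurableSet (G i)) (hsub : ∀ i ∈ I, G i ⊆ B) (δ : ℝ)
    (hδ0 : 0 ≤ δ) (hδ1 : δ ≤ 1) (hδ : ∀ i ∈ I, ENNReal.ofReal δ * μ B ≤ μ (G i)) (n : ℕ) :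
    ∃ z : Fin n → α,
      (open Classical in (I.filter (fun i => ∀ j, z j ∉ G i)).card : ℝ) ≤ (1 - δ) ^ n * I.card := by
  classical
  induction n with
  | zero =>
    refine ⟨Fin.elim0, ?_⟩
    rw [pow_zero, one_mul]
    exact_mod_cast Finset.card_filter_le _ _
  | succ n ih =>
    obtain ⟨z, hz⟩ := ih
    set J := I.filter (fun i => ∀ j, z j ∉ G i) with hJ
    have hJI : ∀ i ∈ J, i ∈ I := fun i hi => (Finset.mem_filter.mp hi).1
    obtain ⟨p, hp⟩ := one_step μ B hB0 hBt hBm J G (fun i hi => hG i (hJI i hi))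
      (fun i hi => hsub i (hJI i hi)) δ hδ0 (fun i hi => hδ i (hJI i hi))
    refine ⟨Fin.cons p z, ?_⟩
    have h1 : I.filter (fun i => ∀ j, (Fin.cons p z : Fin (n + 1) → α) j ∉ G i)
        = J.filter (fun i => ¬ p ∈ G i) := by
      ext i
      simp only [hJ, Finset.mem_filter, Fin.forall_fin_succ, Fin.cons_zero, Fin.cons_succ]
      tauto
    rw [h1]
    have h2 := Finset.card_filter_add_card_filter_not (s := J) (p := fun i => p ∈ G i)
    have h3 : ((J.filter (fun i => p ∈ G i)).card : ℝ) + (J.filter (fun i => ¬ p ∈ G i)).card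
        = J.card := by exact_mod_cast h2
    have h4 : ((J.filter (fun i => ¬ p ∈ G i)).card : ℝ) ≤ (1 - δ) * J.card := by
      have : ((J.filter (fun i => p ∈ G i)).card : ℝ) ≥ δ * J.card := hp
      linarith
    calc ((J.filter (fun i => ¬ p ∈ G i)).card : ℝ) ≤ (1 - δ) * J.card := h4
      _ ≤ (1 - δ) * ((1 - δ) ^ n * I.card) :=
          mul_le_mul_of_nonneg_left hz (by linarith)
      _ = (1 - δ) ^ (n + 1) * I.card := by ring

/-- If `(1 - δ)^n |I| < 1` then `n` points hit all sets. -/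
theorem hit_all {α : Type*} [MeasurableSpace α] (μ : Measure α) (B : Set α) (hB0 : μ B ≠ 0)
    (hBt : μ B ≠ ⊤) (hBm : MeasurableSet B) {ι : Type*} (I : Finset ι)
    (G : ι → Set α) (hG : ∀ i ∈ I, MeasurableSet (G i)) (hsub : ∀ i ∈ I, G i ⊆ B) (δ : ℝ)
    (hδ0 : 0 ≤ δ) (hδ1 : δ ≤ 1) (hδ : ∀ i ∈ I, ENNReal.ofReal δ * μ B ≤ μ (G i)) (n : ℕ)
    (hn : (1 - δ) ^ n * I.card < 1) :
    ∃ z : Fin n → α, ∀ i ∈ I, ∃ j, z j ∈ G i := by
  classical
  obtain ⟨z, hz⟩ := hitting μ B hB0 hBt hBm I G hG hsub δ hδ0 hδ1 hδ n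
  refine ⟨z, fun i hi => ?_⟩
  by_contra hcon
  push Not at hcon
  have h1 : i ∈ I.filter (fun i => ∀ j, z j ∉ G i) := Finset.mem_filter.mpr ⟨hi, hcon⟩
  have h2 : 1 ≤ (I.filter (fun i => ∀ j, z j ∉ G i)).card := Finset.card_pos.mpr ⟨i, h1⟩
  have h3 : (1 : ℝ) ≤ ((I.filter (fun i => ∀ j, z j ∉ G i)).card : ℝ) := by exact_mod_cast h2
  have h4 : ((I.filter (fun i => ∀ j, z j ∉ G i)).card : ℝ) ≤ (1 - δ) ^ n * I.card := by
    convert hz
  linarith

end Pool.Dia50c
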