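import Mathlib
import Pool.Agent.Dia50c.Dich

/-!
MP_d16438_co, SchrammBound: the set of good directions is large.
-/

set_option autoImplicit false

namespace Pool.Dia50c

open MeasureTheory
open scoped BigOperators RealInnerProductSpace ENNReal

/-- The slab of the unit ball. -/
def Slab (d : ℕ) (e : EuclideanSpace ℝ (Fin d)) : Set (EuclideanSpace ℝ (Fin d)) :=
  {v | ‖v‖ ≤ 1 ∧ 0 ≤ ⟪v, e⟫ ∧ ⟪v, e⟫ ≤ 1 / (d : ℝ)}

theorem slab_volume (d : ℕ) (hd : 1 ≤ d) (e : EuclideanSpace ℝ (Fin d)) (he : ‖e‖ = 1) :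
    volume (Metric.closedBall (0 : EuclideanSpace ℝ (Fin d)) 1)
      ≤ 2 * d * volume (Slab d e) := by
  have hd0 : (0 : ℝ) < d := by exact_mod_cast hd
  have hee : ⟪e, e⟫ = 1 := by rw [real_inner_self_eq_norm_sq, he]; norm_num
  have hcov : Metric.closedBall (0 : EuclideanSpace ℝ (Fin d)) 1 ⊆
      (⋃ j : Fin d, (fun v => v + (-((j : ℝ) / d)) • e) ⁻¹' Slab d e) ∪
      (⋃ j : Fin d, (fun v => -v) ⁻¹' ((fun v => v + (-((j : ℝ) / d)) • e) ⁻¹' Slab d e)) := by
    have key : ∀ v : EuclideanSpace ℝ (Fin d), ‖v‖ ≤ 1 → 0 ≤ ⟪v, e⟫ →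
        ∃ j : Fin d, v + (-((j : ℝ) / d)) • e ∈ Slab d e := by
      intro v hv hve
      have hve1 : ⟪v, e⟫ ≤ 1 := by
        have := real_inner_le_norm v e
        rw [he, mul_one] at this
        linarith
      have hj : ∃ j : Fin d, (j : ℝ) / d ≤ ⟪v, e⟫ ∧ ⟪v, e⟫ ≤ ((j : ℝ) + 1) / d := by
        by_cases h1 : ⟪v, e⟫ < 1
        · have hfl : ⌊⟪v, e⟫ * d⌋₊ < d := by
            rw [Nat.floor_lt (by positivity)]
            nlinarith
          refine ⟨⟨⌊⟪v, e⟫ * d⌋₊, hfl⟩, ?_, ?_⟩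
          · rw [div_le_iff₀ hd0]
            exact Nat.floor_le (by positivity)
          · rw [le_div_iff₀ hd0]
            exact (Nat.lt_floor_add_one _).le
        · have h1' : ⟪v, e⟫ = 1 := le_antisymm hve1 (not_lt.mp h1)
          refine ⟨⟨d - 1, by omega⟩, ?_, ?_⟩
          · rw [h1', div_le_one hd0]
            exact_mod_cast Nat.sub_le d 1
          · rw [h1', le_div_iff₀ hd0]
            have : ((d - 1 : ℕ) : ℝ) = d - 1 := by rw [Nat.cast_sub hd]; norm_num
            simp only [this]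
            linarith
      obtain ⟨j, hj1, hj2⟩ := hj
      refine ⟨j, ?_⟩
      have hin : ⟪v + (-((j : ℝ) / d)) • e, e⟫ = ⟪v, e⟫ - (j : ℝ) / d := by
        rw [inner_add_left, real_inner_smul_left, hee]; ring
      have hj0 : (0 : ℝ) ≤ (j : ℝ) / d := by positivity
      refine ⟨?_, ?_, ?_⟩
      · have h2 : ‖v + (-((j : ℝ) / d)) • e‖ ^ 2 ≤ 1 := by
          rw [norm_add_sq_real, norm_smul, he, real_inner_smul_right, mul_one,
            Real.norm_eq_abs, sq_abs]
          have h0 := norm_nonneg v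
          nlinarith
        have h0 := norm_nonneg (v + (-((j : ℝ) / d)) • e)
        nlinarith
      · rw [hin]; linarith
      · rw [hin]
        have : ((j : ℝ) + 1) / d = (j : ℝ) / d + 1 / d := by ring
        linarith
    intro v hv
    rw [mem_closedBall_zero_iff] at hv
    by_cases h0 : 0 ≤ ⟪v, e⟫
    · left
      obtain ⟨j, hj⟩ := key v hv h0
      exact Set.mem_iUnion.mpr ⟨j, hj⟩
    · right
      obtain ⟨j, hj⟩ := key (-v) (by rw [norm_neg]; exact hv)
        (by rw [inner_neg_left]; linarith)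
      exact Set.mem_iUnion.mpr ⟨j, hj⟩
  refine (measure_mono hcov).trans ((measure_union_le _ _).trans ?_)
  have h1 : volume (⋃ j : Fin d, (fun v => v + (-((j : ℝ) / d)) • e) ⁻¹' Slab d e)
      ≤ d * volume (Slab d e) := by
    refine (measure_iUnion_le _).trans ?_
    rw [tsum_fintype]
    refine le_of_eq ?_
    calc ∑ j : Fin d, volume ((fun v => v + (-((j : ℝ) / d)) • e) ⁻¹' Slab d e)
        = ∑ _j : Fin d, volume (Slab d e) :=
          Finset.sum_congr rfl (fun j _ => measure_preimage_add_right _ _ _)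
      _ = d * volume (Slab d e) := by simp
  have h2 : volume (⋃ j : Fin d, (fun v => -v) ⁻¹'
      ((fun v => v + (-((j : ℝ) / d)) • e) ⁻¹' Slab d e)) ≤ d * volume (Slab d e) := by
    refine (measure_iUnion_le _).trans ?_
    rw [tsum_fintype]
    refine le_of_eq ?_
    calc ∑ j : Fin d, volume ((fun v => -v) ⁻¹'
          ((fun v => v + (-((j : ℝ) / d)) • e) ⁻¹' Slab d e))
        = ∑ _j : Fin d, volume (Slab d e) := by
          refine Finset.sum_congr rfl (fun j _ => ?_)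
          have : volume ((fun v : EuclideanSpace ℝ (Fin d) => -v) ⁻¹'
            ((fun v => v + (-((j : ℝ) / d)) • e) ⁻¹' Slab d e))
            = volume ((fun v => v + (-((j : ℝ) / d)) • e) ⁻¹' Slab d e) :=
            Measure.measure_preimage_neg _ _
          rw [this]
          exact measure_preimage_add_right _ _ _
      _ = d * volume (Slab d e) := by simp
  calc _ ≤ d * volume (Slab d e) + d * volume (Slab d e) := add_le_add h1 h2
    _ = 2 * d * volume (Slab d e) := by ring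

theorem measurable_good {d : ℕ} (r : ℕ) (P : Finset (EuclideanSpace ℝ (Fin d))) (η : ℝ)
    (x0 : EuclideanSpace ℝ (Fin d)) : MeasurableSet (Good r P η x0) := by
  classical
  have : Good r P η x0 = ⋂ x ∈ P.filter (fun x => dist x x0 ≤ η),
      ⋂ S ∈ P.powerset.filter (fun S => Clq r P S ∧ x ∈ S),
        ⋃ y ∈ S, {z : EuclideanSpace ℝ (Fin d) | ⟪z, y⟫ < ⟪z, x⟫} := by
    ext z
    simp only [Good, Set.mem_ofPred_eq, Set.mem_iInter, Finset.mem_filter, Finset.mem_powerset,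
      Set.mem_iUnion, exists_prop]
    constructor
    · intro h x hx S hS
      exact h x hx.1 hx.2 S hS.2.1 hS.2.2
    · intro h x hxP hx0 S hS hxS
      exact h x ⟨hxP, hx0⟩ S ⟨hS.1, hS, hxS⟩
  rw [this]
  refine Finset.measurableSet_biInter _ (fun x _ => Finset.measurableSet_biInter _ (fun S _ =>
    Finset.measurableSet_biUnion _ (fun y _ => ?_)))
  have : IsOpen {z : EuclideanSpace ℝ (Fin d) | ⟪z, y⟫ < ⟪z, x⟫} :=
    isOpen_lt (by fun_prop) (by fun_prop)
  exact this.measurableSet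

theorem good_volume {d : ℕ} (hd : 1 ≤ d) (P : Finset (EuclideanSpace ℝ (Fin d)))
    (hP : ∀ x ∈ P, ‖x‖ ^ 2 ≤ 1 / 2) (hd1 : ∀ x ∈ P, ∀ y ∈ P, dist x y ≤ 1) (k : ℕ)
    (hk : 1 ≤ k) (x0 : EuclideanSpace ℝ (Fin d)) (hx0 : 1 / 4 ≤ ‖x0‖) (h ρ : ℝ)
    (hh : h = Real.sqrt 2 / 2 / Real.sqrt k + 1 / d) (hρ0 : 0 ≤ ρ)
    (hρ : h ^ 2 + 2 * h / d + 1 ≤ ρ ^ 2) :
    volume (Metric.closedBall (0 : EuclideanSpace ℝ (Fin d)) 1) ≤
      4 * d * volume (Good (k + 1) P (1 / (16 * d)) x0 ∩ Metric.closedBall 0 ρ) := by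
  have hx0pos : 0 < ‖x0‖ := by linarith
  have hd0 : (0 : ℝ) < d := by exact_mod_cast hd
  set e : EuclideanSpace ℝ (Fin d) := (‖x0‖)⁻¹ • x0 with hedef
  have he : ‖e‖ = 1 := by
    rw [hedef, norm_smul, norm_inv, norm_norm]
    exact inv_mul_cancel₀ hx0pos.ne'
  have hxe : x0 = ‖x0‖ • e := by
    rw [hedef, smul_smul, mul_inv_cancel₀ hx0pos.ne', one_smul]
  have hee : ⟪e, e⟫ = 1 := by rw [real_inner_self_eq_norm_sq, he]; norm_num
  have hh0 : 0 ≤ h := by rw [hh]; positivity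
  set G' := Good (k + 1) P (1 / (16 * d)) x0 ∩ Metric.closedBall 0 ρ with hG'
  have hG'm : MeasurableSet G' := (measurable_good _ _ _ _).inter Metric.isClosed_closedBall.measurableSet
  set A : Set (EuclideanSpace ℝ (Fin d)) := (fun v => v + h • e) ⁻¹' G' with hA
  let τ : EuclideanSpace ℝ (Fin d) ≃ₗᵢ[ℝ] EuclideanSpace ℝ (Fin d) :=
    (Submodule.span ℝ {e}).reflection
  have hτ : ∀ v, τ v = (2 * ⟪v, e⟫) • e - v := by
    intro v
    simp only [τ]
    rw [Submodule.reflection_singleton_apply]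
    simp only [he]
    rw [real_inner_comm]
    norm_num
    rw [← Nat.cast_smul_eq_nsmul ℝ, smul_smul]
    norm_num
  have hAm : MeasurableSet A := hG'm.preimage (by fun_prop)
  have hcov : Slab d e ⊆ A ∪ τ ⁻¹' A := by
    intro v hv
    obtain ⟨hv1, hv2, hv3⟩ := hv
    set w := v - ⟪v, e⟫ • e with hw
    have hwe : ⟪w, e⟫ = 0 := by
      rw [hw, inner_sub_left, real_inner_smul_left, hee]; ring
    have hvn : ‖v‖ ^ 2 = ⟪v, e⟫ ^ 2 + ‖w‖ ^ 2 := by
      have hv : v = ⟪v, e⟫ • e + w := by rw [hw]; abel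
      have hew : ⟪e, w⟫ = 0 := by rw [real_inner_comm]; exact hwe
      have h1 : ‖⟪v, e⟫ • e + w‖ ^ 2 = ⟪v, e⟫ ^ 2 + ‖w‖ ^ 2 := by
        rw [norm_add_sq_real, norm_smul, he, real_inner_smul_left, hew,
          mul_one, Real.norm_eq_abs, sq_abs]
        ring
      rw [← h1, ← hv]
    have hv0 := norm_nonneg v
    have hw0 := norm_nonneg w
    have hw1 : ‖w‖ ≤ 1 := by nlinarith
    have ht : Real.sqrt 2 / 2 / Real.sqrt k + 1 / d ≤ h + ⟪v, e⟫ := by
      rw [← hh]; linarith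
    have hdich := dichotomy P hP hd1 k d hk hd x0 e w hx0 hxe hwe hw1 (h + ⟪v, e⟫) ht
    have hnorm : ∀ u : EuclideanSpace ℝ (Fin d), ‖u‖ ^ 2 = ‖v‖ ^ 2 → ⟪u, e⟫ = ⟪v, e⟫ →
        u + h • e ∈ Metric.closedBall (0 : EuclideanSpace ℝ (Fin d)) ρ := by
      intro u hu1 hu2
      rw [mem_closedBall_zero_iff]
      have h2 : ‖u + h • e‖ ^ 2 ≤ ρ ^ 2 := by
        rw [norm_add_sq_real, hu1, real_inner_smul_right, hu2, norm_smul, he, mul_one,
          Real.norm_eq_abs, sq_abs]
        have h3 : h * ⟪v, e⟫ ≤ h * (1 / d) := mul_le_mul_of_nonneg_left hv3 hh0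
        have h4 : 2 * h / d = 2 * (h * (1 / d)) := by ring
        nlinarith
      exact abs_le_of_sq_le_sq' h2 hρ0 |>.2
    rcases hdich with hgood | hgood
    · left
      refine ⟨?_, hnorm v rfl rfl⟩
      have : (h + ⟪v, e⟫) • e + w = v + h • e := by
        rw [hw, add_smul]; abel
      show v + h • e ∈ _
      rw [← this]; exact hgood
    · right
      have hτv : τ v + h • e = (h + ⟪v, e⟫) • e + -w := by
        rw [hτ, hw, add_smul, two_mul, add_smul]; abel
      refine ⟨?_, hnorm (τ v) (by rw [LinearIsometryEquiv.norm_map]) ?_⟩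
      · show τ v + h • e ∈ _
        rw [hτv]; exact hgood
      · rw [hτ, inner_sub_left, real_inner_smul_left, hee]; ring
  have hvolA : volume A = volume G' := measure_preimage_add_right _ _ _
  have hvolτ : volume (τ ⁻¹' A) = volume A :=
    (LinearIsometryEquiv.measurePreserving τ).measure_preimage hAm.nullMeasurableSet
  calc volume (Metric.closedBall (0 : EuclideanSpace ℝ (Fin d)) 1)
      ≤ 2 * d * volume (Slab d e) := slab_volume d hd e he
    _ ≤ 2 * d * (volume G' + volume G') := by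
        gcongr
        refine (measure_mono hcov).trans ((measure_union_le _ _).trans ?_)
        rw [hvolτ, hvolA]
    _ = 4 * d * volume G' := by ring

end Pool.Dia50c
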