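import Mathlib
import Pool.Agent.Dia50c.Dich
import Pool.Agent.Dia50c.Vol
import Pool.Agent.Dia50c.Hit

/-!
MP_d16438_co, SchrammBound: the colouring of a normalised set.
-/

set_option autoImplicit false

namespace Pool.Dia50c

open MeasureTheory
open scoped BigOperators RealInnerProductSpace ENNReal

/-- The cell of a point. -/
noncomputable def cell {d : ℕ} (x : EuclideanSpace ℝ (Fin d)) : Fin d → ℤ :=
  fun i => ⌊(16 * (d : ℝ) ^ 2) * x i⌋

theorem dist_of_cell {d : ℕ} (hd : 1 ≤ d) (x y : EuclideanSpace ℝ (Fin d))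
    (h : cell x = cell y) : dist x y ≤ 1 / (16 * d) := by
  have hd0 : (0 : ℝ) < d := by exact_mod_cast hd
  have hd1 : (1 : ℝ) ≤ d := by exact_mod_cast hd
  have hm : (0 : ℝ) < 16 * (d : ℝ) ^ 2 := by positivity
  have h1 : ∀ i, dist (x i) (y i) ^ 2 ≤ (1 / (16 * (d : ℝ) ^ 2)) ^ 2 := by
    intro i
    have hi : ⌊(16 * (d : ℝ) ^ 2) * x i⌋ = ⌊(16 * (d : ℝ) ^ 2) * y i⌋ := congrFun h i
    have h2 := Int.abs_sub_lt_one_of_floor_eq_floor hi
    rw [← mul_sub, abs_mul, abs_of_pos hm] at h2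
    have h3 : |x i - y i| ≤ 1 / (16 * (d : ℝ) ^ 2) := by
      rw [le_div_iff₀ hm]; linarith
    rw [Real.dist_eq]
    exact pow_le_pow_left₀ (abs_nonneg _) h3 2
  rw [EuclideanSpace.dist_eq]
  have h4 : ∑ i, dist (x i) (y i) ^ 2 ≤ (1 / (16 * (d : ℝ))) ^ 2 := by
    calc ∑ i, dist (x i) (y i) ^ 2 ≤ ∑ _i : Fin d, (1 / (16 * (d : ℝ) ^ 2)) ^ 2 :=
          Finset.sum_le_sum (fun i _ => h1 i)
      _ = d * (1 / (16 * (d : ℝ) ^ 2)) ^ 2 := by simp
      _ ≤ (1 / (16 * (d : ℝ))) ^ 2 := by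
          rw [div_pow, div_pow, one_pow, mul_one_div, div_le_div_iff₀ (by positivity)
            (by positivity)]
          have : (d : ℝ) ≤ d ^ 2 := by nlinarith
          have e : (16 * (d : ℝ)) ^ 2 = 256 * d ^ 2 := by ring
          have e2 : (16 * (d : ℝ) ^ 2) ^ 2 = 256 * (d ^ 2 * d ^ 2) := by ring
          rw [e, e2]
          have h5 : (0 : ℝ) < d ^ 2 := by positivity
          nlinarith
  calc Real.sqrt (∑ i, dist (x i) (y i) ^ 2) ≤ Real.sqrt ((1 / (16 * (d : ℝ))) ^ 2) :=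
        Real.sqrt_le_sqrt h4
    _ = 1 / (16 * d) := Real.sqrt_sq (by positivity)

theorem card_cells {d : ℕ} (hd : 1 ≤ d) (V : Finset (EuclideanSpace ℝ (Fin d)))
    (hV : ∀ x ∈ V, ‖x‖ ^ 2 ≤ 1 / 2) : ((V.image cell).card : ℝ) ≤ (33 * (d : ℝ) ^ 2) ^ d := by
  classical
  have hd1 : (1 : ℝ) ≤ d := by exact_mod_cast hd
  have hsub : V.image cell ⊆ Fintype.piFinset
      (fun _ : Fin d => Finset.Icc (-(16 * (d : ℤ) ^ 2)) (16 * (d : ℤ) ^ 2)) := by
    intro c hc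
    obtain ⟨x, hx, rfl⟩ := Finset.mem_image.mp hc
    rw [Fintype.mem_piFinset]
    intro i
    have hxi : |x i| ≤ 1 := by
      have h1 : ‖x i‖ ≤ ‖x‖ := PiLp.norm_apply_le x i
      have h2 := hV x hx
      have h3 := norm_nonneg x
      rw [Real.norm_eq_abs] at h1
      nlinarith
    have hxi' := abs_le.mp hxi
    rw [Finset.mem_Icc]
    constructor
    · show -(16 * (d : ℤ) ^ 2) ≤ ⌊(16 * (d : ℝ) ^ 2) * x i⌋
      rw [Int.le_floor]
      push_cast
      nlinarith [sq_nonneg (d : ℝ)]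
    · show ⌊(16 * (d : ℝ) ^ 2) * x i⌋ ≤ 16 * (d : ℤ) ^ 2
      have h4 : (⌊(16 * (d : ℝ) ^ 2) * x i⌋ : ℝ) ≤ 16 * (d : ℝ) ^ 2 := by
        refine (Int.floor_le _).trans ?_
        nlinarith [sq_nonneg (d : ℝ)]
      exact_mod_cast h4
  have h1 := Finset.card_le_card hsub
  rw [Fintype.card_piFinset] at h1
  simp only [Int.card_Icc, Finset.prod_const, Finset.card_univ, Fintype.card_fin] at h1
  have h2 : (16 * (d : ℤ) ^ 2 + 1 - -(16 * (d : ℤ) ^ 2)).toNat = 32 * d ^ 2 + 1 := by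
    have : 16 * (d : ℤ) ^ 2 + 1 - -(16 * (d : ℤ) ^ 2) = ((32 * d ^ 2 + 1 : ℕ) : ℤ) := by
      push_cast; ring
    rw [this, Int.toNat_natCast]
  rw [h2] at h1
  have h3 : ((V.image cell).card : ℝ) ≤ ((32 * d ^ 2 + 1 : ℕ) : ℝ) ^ d := by exact_mod_cast h1
  refine h3.trans (pow_le_pow_left₀ (by positivity) ?_ d)
  push_cast
  nlinarith

/-- The colouring with `n` colours, if `n` is large. -/
theorem colouring {d : ℕ} (hd : 1 ≤ d) (P : Finset (EuclideanSpace ℝ (Fin d)))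
    (hP : ∀ x ∈ P, ‖x‖ ^ 2 ≤ 1 / 2) (hd1 : ∀ x ∈ P, ∀ y ∈ P, dist x y ≤ 1) (k : ℕ)
    (hk : 1 ≤ k) (h ρ : ℝ) (hh : h = Real.sqrt 2 / 2 / Real.sqrt k + 1 / d) (hρ0 : 0 < ρ)
    (hρ : h ^ 2 + 2 * h / d + 1 ≤ ρ ^ 2) (n : ℕ) (hn0 : 0 < n)
    (hn : d * Real.log (33 * (d : ℝ) ^ 2) < 1 / (4 * d * ρ ^ d) * n) :
    ∃ f : EuclideanSpace ℝ (Fin d) → Fin n, ∀ S, Clq (k + 1) P S →
      ¬ ∀ x ∈ S, ∀ y ∈ S, f x = f y := by
  classical
  have hd0 : (0 : ℝ) < d := by exact_mod_cast hd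
  have hd1' : (1 : ℝ) ≤ d := by exact_mod_cast hd
  have hh0 : 0 ≤ h := by rw [hh]; positivity
  have hρ1 : 1 ≤ ρ := by
    have : 0 ≤ 2 * h / d := by positivity
    nlinarith [sq_nonneg h]
  have hρd : 1 ≤ ρ ^ d := one_le_pow₀ hρ1
  set V := P.filter (fun x => ∃ S, Clq (k + 1) P S ∧ x ∈ S) with hVdef
  have hVP : ∀ x ∈ V, x ∈ P := fun x hx => (Finset.mem_filter.mp hx).1
  have hVfar : ∀ x ∈ V, 1 / 4 ≤ ‖x‖ := by
    intro x hx
    obtain ⟨hxP, S, hS, hxS⟩ := Finset.mem_filter.mp hx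
    have h2 : 1 < S.card := by rw [hS.2.1]; omega
    obtain ⟨y, hyS, hyx⟩ := Finset.exists_mem_ne h2 x
    exact far_of_partner x y (hP y (hS.1 hyS)) (hS.2.2 x hxS y hyS hyx.symm)
  set I := V.image cell with hI
  have hrep : ∀ c : Fin d → ℤ, ∃ x : EuclideanSpace ℝ (Fin d), c ∈ I → x ∈ V ∧ cell x = c := by
    intro c
    by_cases hc : c ∈ I
    · obtain ⟨x, hx, hxc⟩ := Finset.mem_image.mp hc
      exact ⟨x, fun _ => ⟨hx, hxc⟩⟩
    · exact ⟨0, fun h => absurd h hc⟩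
  choose rep hrep using hrep
  set δ : ℝ := 1 / (4 * d * ρ ^ d) with hδ
  have hδ0 : 0 < δ := by positivity
  have hδ1 : δ ≤ 1 := by
    rw [hδ, div_le_one (by positivity)]
    nlinarith
  have hball0 : volume (Metric.closedBall (0 : EuclideanSpace ℝ (Fin d)) ρ) ≠ 0 :=
    (Metric.measure_closedBall_pos _ _ hρ0).ne'
  have hballt : volume (Metric.closedBall (0 : EuclideanSpace ℝ (Fin d)) ρ) ≠ ⊤ :=
    measure_closedBall_lt_top.ne
  have hvol : ∀ c ∈ I, ENNReal.ofReal δ * volume (Metric.closedBall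
      (0 : EuclideanSpace ℝ (Fin d)) ρ) ≤
      volume (Good (k + 1) P (1 / (16 * d)) (rep c) ∩ Metric.closedBall 0 ρ) := by
    intro c hc
    have hx0 := hVfar _ (hrep c hc).1
    have h1 := good_volume hd P hP hd1 k hk (rep c) hx0 h ρ hh hρ0.le hρ
    rw [Measure.addHaar_closedBall' volume (0 : EuclideanSpace ℝ (Fin d)) hρ0.le,
      finrank_euclideanSpace_fin, ← mul_assoc, ← ENNReal.ofReal_mul hδ0.le]
    have h2 : δ * ρ ^ d = 1 / (4 * d) := by
      rw [hδ]; field_simp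
    rw [h2]
    calc ENNReal.ofReal (1 / (4 * d)) * volume (Metric.closedBall
          (0 : EuclideanSpace ℝ (Fin d)) 1)
        ≤ ENNReal.ofReal (1 / (4 * d)) * (4 * d * volume (Good (k + 1) P (1 / (16 * d)) (rep c)
          ∩ Metric.closedBall 0 ρ)) := by gcongr
      _ = volume (Good (k + 1) P (1 / (16 * d)) (rep c) ∩ Metric.closedBall 0 ρ) := by
          rw [← mul_assoc]
          have : ENNReal.ofReal (1 / (4 * (d : ℝ))) * (4 * (d : ℝ≥0∞)) = 1 := by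
            have e : (4 * (d : ℝ≥0∞)) = ENNReal.ofReal (4 * d) := by
              rw [ENNReal.ofReal_mul (by norm_num), ENNReal.ofReal_natCast]
              norm_num
            rw [e, ← ENNReal.ofReal_mul (by positivity)]
            have : 1 / (4 * (d : ℝ)) * (4 * d) = 1 := by field_simp
            rw [this, ENNReal.ofReal_one]
          rw [this, one_mul]
  have hcount : (1 - δ) ^ n * (I.card : ℝ) < 1 := by
    have h1 : (I.card : ℝ) ≤ (33 * (d : ℝ) ^ 2) ^ d := card_cells hd V (fun x hx => hP x (hVP x hx))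
    have h2 : (33 * (d : ℝ) ^ 2) ^ d = Real.exp (d * Real.log (33 * (d : ℝ) ^ 2)) := by
      rw [Real.exp_nat_mul, Real.exp_log (by positivity)]
    have h3 : (1 - δ) ^ n ≤ Real.exp (-(δ * n)) := by
      have h4 : 1 - δ ≤ Real.exp (-δ) := Real.one_sub_le_exp_neg δ
      calc (1 - δ) ^ n ≤ (Real.exp (-δ)) ^ n := pow_le_pow_left₀ (by linarith) h4 n
        _ = Real.exp (-(δ * n)) := by
            rw [← Real.exp_nat_mul]; congr 1; ring
    calc (1 - δ) ^ n * (I.card : ℝ)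
        ≤ Real.exp (-(δ * n)) * Real.exp (d * Real.log (33 * (d : ℝ) ^ 2)) := by
          rw [← h2]
          exact mul_le_mul h3 h1 (Nat.cast_nonneg _) (Real.exp_pos _).le
      _ = Real.exp (d * Real.log (33 * (d : ℝ) ^ 2) - δ * n) := by
          rw [← Real.exp_add]; congr 1; ring
      _ < 1 := by
          rw [Real.exp_lt_one_iff]
          linarith
  obtain ⟨z, hz⟩ := hit_all volume (Metric.closedBall (0 : EuclideanSpace ℝ (Fin d)) ρ)
    hball0 hballt Metric.isClosed_closedBall.measurableSet I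
    (fun c => Good (k + 1) P (1 / (16 * d)) (rep c) ∩ Metric.closedBall 0 ρ)
    (fun c _ => (measurable_good _ _ _ _).inter Metric.isClosed_closedBall.measurableSet)
    (fun c _ => Set.inter_subset_right) δ hδ0.le hδ1 hvol n hcount
  have hcol : ∀ x : EuclideanSpace ℝ (Fin d), ∃ j : Fin n, x ∈ V →
      z j ∈ Good (k + 1) P (1 / (16 * d)) (rep (cell x)) := by
    intro x
    by_cases hx : x ∈ V
    · obtain ⟨j, hj⟩ := hz (cell x) (Finset.mem_image_of_mem _ hx)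
      exact ⟨j, fun _ => hj.1⟩
    · exact ⟨⟨0, hn0⟩, fun h => absurd h hx⟩
  choose f hf using hcol
  refine ⟨f, fun S hS hmono => ?_⟩
  have hSne : S.Nonempty := by
    rw [← Finset.card_pos, hS.2.1]; omega
  obtain ⟨x1, hx1⟩ := hSne
  obtain ⟨x, hxS, hmin⟩ := Finset.exists_min_image S (fun y => ⟪z (f x1), y⟫) ⟨x1, hx1⟩
  have hxV : x ∈ V := Finset.mem_filter.mpr ⟨hS.1 hxS, S, hS, hxS⟩
  have hg := hf x hxV
  rw [hmono x hxS x1 hx1] at hg
  have hcx := Finset.mem_image_of_mem cell hxV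
  have hdist : dist x (rep (cell x)) ≤ 1 / (16 * d) :=
    dist_of_cell hd _ _ (hrep (cell x) hcx).2.symm
  obtain ⟨y, hyS, hy⟩ := hg x (hS.1 hxS) hdist S hS hxS
  exact absurd (hmin y hyS) (not_le.mpr hy)

end Pool.Dia50c
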