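import Mathlib
import Pool.Agent.Dia50b.Defs
import Pool.Agent.Dia50c.Core

/-!
MP_d16438_co, SchrammBound: numbers, and the bound for `χ(H_r(P))`.
-/

set_option autoImplicit false

namespace Pool.Dia50c

open Pool.Dia50b

theorem numbers (d k : ℕ) (hd : 1 ≤ d) (hk : 1 ≤ k) :
    ∃ (h ρ : ℝ) (n : ℕ), h = Real.sqrt 2 / 2 / Real.sqrt k + 1 / d ∧ 0 < ρ ∧
      h ^ 2 + 2 * h / d + 1 ≤ ρ ^ 2 ∧ 0 < n ∧
      d * Real.log (33 * (d : ℝ) ^ 2) < 1 / (4 * d * ρ ^ d) * n ∧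
      (n : ℝ) ≤ 400 * (d : ℝ) ^ 2 * (1 + Real.log d) * Real.sqrt (1 + 1 / (2 * k)) ^ d := by
  have hd0 : (0 : ℝ) < d := by exact_mod_cast hd
  have hd1 : (1 : ℝ) ≤ d := by exact_mod_cast hd
  have hk0 : (0 : ℝ) < k := by exact_mod_cast hk
  have hlog : 0 ≤ Real.log d := Real.log_nonneg hd1
  set a := Real.sqrt 2 / 2 / Real.sqrt k with ha
  set A : ℝ := 1 + 1 / (2 * k) with hA
  have ha0 : 0 < a := by
    have : 0 < Real.sqrt k := Real.sqrt_pos.mpr hk0
    positivity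
  have ha2 : a ^ 2 = 1 / (2 * k) := by
    rw [ha, div_pow, div_pow, Real.sq_sqrt (by norm_num), Real.sq_sqrt hk0.le]
    field_simp
  have hk1 : (1 : ℝ) / (2 * k) ≤ 1 / 2 := by
    apply one_div_le_one_div_of_le (by norm_num)
    have : (1 : ℝ) ≤ k := by exact_mod_cast hk
    linarith
  have ha1 : a ≤ 3 / 4 := by nlinarith
  have hA1 : 1 ≤ A := by
    have : (0 : ℝ) ≤ 1 / (2 * k) := by positivity
    rw [hA]; linarith
  set h := a + 1 / (d : ℝ) with hh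
  have hh0 : 0 < h := by positivity
  set ρ := Real.sqrt (h ^ 2 + 2 * h / d + 1) with hρ
  have hin : 0 < h ^ 2 + 2 * h / d + 1 := by positivity
  have hρ0 : 0 < ρ := Real.sqrt_pos.mpr hin
  have hρ2 : ρ ^ 2 = h ^ 2 + 2 * h / d + 1 := Real.sq_sqrt hin.le
  have hρ1 : 1 ≤ ρ := by
    have : 0 ≤ 2 * h / d := by positivity
    nlinarith [sq_nonneg h]
  have hρd : 1 ≤ ρ ^ d := one_le_pow₀ hρ1
  have hA2 : ρ ^ 2 ≤ A * (1 + 6 / d) := by
    set δ : ℝ := 1 / d with hδ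
    have hδ0 : 0 < δ := by positivity
    have hδ1 : δ ≤ 1 := by rw [hδ, div_le_one hd0]; exact hd1
    have e1 : 2 * h / d = 2 * h * δ := by rw [hδ]; ring
    have e2 : (6 : ℝ) / d = 6 * δ := by rw [hδ]; ring
    rw [hρ2, e1, e2, hh, hA, ← ha2]
    have h1 : 4 * a + 3 * δ ≤ 6 := by linarith
    have h2 : δ * (4 * a + 3 * δ) ≤ δ * 6 := mul_le_mul_of_nonneg_left h1 hδ0.le
    nlinarith [mul_nonneg hδ0.le (sq_nonneg a)]
  have hρA : ρ ≤ Real.sqrt A * Real.exp (3 / d) := by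
    have h1 : (1 : ℝ) + 6 / d ≤ Real.exp (3 / d) ^ 2 := by
      have h2 := Real.add_one_le_exp (6 / (d : ℝ))
      have h3 : Real.exp (3 / (d : ℝ)) ^ 2 = Real.exp (6 / d) := by
        rw [← Real.exp_nat_mul]; congr 1; push_cast; ring
      rw [h3]; linarith
    have h4 : ρ ^ 2 ≤ (Real.sqrt A * Real.exp (3 / d)) ^ 2 := by
      have hA0 : (0 : ℝ) ≤ A := by linarith
      rw [mul_pow, Real.sq_sqrt hA0]
      exact hA2.trans (mul_le_mul_of_nonneg_left h1 hA0)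
    exact abs_le_of_sq_le_sq' h4 (by positivity) |>.2
  have hpow : ρ ^ d ≤ Real.sqrt A ^ d * Real.exp 3 := by
    calc ρ ^ d ≤ (Real.sqrt A * Real.exp (3 / d)) ^ d := pow_le_pow_left₀ hρ0.le hρA d
      _ = Real.sqrt A ^ d * Real.exp 3 := by
          rw [mul_pow, ← Real.exp_nat_mul]
          congr 2
          field_simp
  have he1 : Real.exp 1 < 2.7182818286 := Real.exp_one_lt_d9
  have he1' : 2.7182818283 < Real.exp 1 := Real.exp_one_gt_d9
  have he3 : Real.exp 3 ≤ 20.1 := by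
    have : Real.exp 3 = Real.exp 1 ^ 3 := by
      rw [← Real.exp_nat_mul]; norm_num
    rw [this]
    have h0 := Real.exp_pos 1
    calc Real.exp 1 ^ 3 ≤ (2.7182818286 : ℝ) ^ 3 := pow_le_pow_left₀ h0.le he1.le 3
      _ ≤ 20.1 := by norm_num
  have hl33 : Real.log 33 ≤ 4 := by
    rw [Real.log_le_iff_le_exp (by norm_num)]
    have : Real.exp 4 = Real.exp 1 ^ 4 := by
      rw [← Real.exp_nat_mul]; norm_num
    rw [this]
    calc (33 : ℝ) ≤ (2.7182818283 : ℝ) ^ 4 := by norm_num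
      _ ≤ Real.exp 1 ^ 4 := pow_le_pow_left₀ (by norm_num) he1'.le 4
  have hL : Real.log (33 * (d : ℝ) ^ 2) ≤ 4 * (1 + Real.log d) := by
    rw [Real.log_mul (by norm_num) (by positivity), Real.log_pow]
    push_cast
    linarith
  set X := (d : ℝ) * Real.log (33 * (d : ℝ) ^ 2) * (4 * d * ρ ^ d) with hX
  have hlog33 : 0 ≤ Real.log (33 * (d : ℝ) ^ 2) := Real.log_nonneg (by nlinarith)
  have hX0 : 0 ≤ X := by positivity
  refine ⟨h, ρ, ⌊X⌋₊ + 1, rfl, hρ0, hρ2.ge, Nat.succ_pos _, ?_, ?_⟩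
  · rw [one_div, inv_mul_eq_div, lt_div_iff₀ (by positivity)]
    push_cast
    exact Nat.lt_floor_add_one X
  · push_cast
    have h1 : (⌊X⌋₊ : ℝ) ≤ X := Nat.floor_le hX0
    have h2 : X ≤ 16 * ((d : ℝ) ^ 2 * (1 + Real.log d) * ρ ^ d) := by
      rw [hX]
      calc (d : ℝ) * Real.log (33 * (d : ℝ) ^ 2) * (4 * d * ρ ^ d)
          ≤ (d : ℝ) * (4 * (1 + Real.log d)) * (4 * d * ρ ^ d) := by gcongr
        _ = 16 * ((d : ℝ) ^ 2 * (1 + Real.log d) * ρ ^ d) := by ring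
    have h3 : (1 : ℝ) ≤ (d : ℝ) ^ 2 * (1 + Real.log d) * ρ ^ d := by
      have h4 : (1 : ℝ) ≤ (d : ℝ) ^ 2 := by nlinarith
      have h5 : (1 : ℝ) ≤ 1 + Real.log d := by linarith
      calc (1 : ℝ) = 1 * 1 * 1 := by norm_num
        _ ≤ (d : ℝ) ^ 2 * (1 + Real.log d) * ρ ^ d := by gcongr
    have h6 : (d : ℝ) ^ 2 * (1 + Real.log d) * ρ ^ d
        ≤ (d : ℝ) ^ 2 * (1 + Real.log d) * (Real.sqrt A ^ d * 20.1) := by
      have h7 : ρ ^ d ≤ Real.sqrt A ^ d * 20.1 := hpow.trans (by gcongr)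
      gcongr
    have h8 : 0 ≤ (d : ℝ) ^ 2 * (1 + Real.log d) * Real.sqrt A ^ d := by positivity
    calc (⌊X⌋₊ : ℝ) + 1 ≤ 17 * ((d : ℝ) ^ 2 * (1 + Real.log d) * ρ ^ d) := by linarith
      _ ≤ 17 * ((d : ℝ) ^ 2 * (1 + Real.log d) * (Real.sqrt A ^ d * 20.1)) := by linarith
      _ = 341.7 * ((d : ℝ) ^ 2 * (1 + Real.log d) * Real.sqrt A ^ d) := by ring
      _ ≤ 400 * ((d : ℝ) ^ 2 * (1 + Real.log d) * Real.sqrt A ^ d) := by linarith
      _ = 400 * (d : ℝ) ^ 2 * (1 + Real.log d) * Real.sqrt A ^ d := by ring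

theorem bound (r d : ℕ) (hr : 2 ≤ r) (hd : 1 ≤ d) (P : Finset (EuclideanSpace ℝ (Fin d))) :
    (chi r P : ℝ) ≤
      400 * (d : ℝ) ^ 2 * (1 + Real.log d) * Real.sqrt ((2 * r - 1) / (2 * r - 2)) ^ d := by
  classical
  obtain ⟨k, rfl⟩ : ∃ k, r = k + 1 := ⟨r - 1, by omega⟩
  have hk : 1 ≤ k := by omega
  have hk0 : (0 : ℝ) < k := by exact_mod_cast hk
  obtain ⟨h, ρ, n, hh, hρ0, hρ, hn0, hn, hnb⟩ := numbers d k hd hk
  have hA : ((2 * ((k + 1 : ℕ) : ℝ) - 1) / (2 * ((k + 1 : ℕ) : ℝ) - 2)) = 1 + 1 / (2 * k) := by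
    push_cast
    have : (2 * ((k : ℝ) + 1) - 2) = 2 * k := by ring
    rw [this]
    field_simp
    ring
  rw [hA]
  refine le_trans ?_ hnb
  have hcol : Colourable (k + 1) P n := by
    set D := Metric.diam (P : Set (EuclideanSpace ℝ (Fin d))) with hD
    by_cases hedge : ∃ S, IsEdge (k + 1) P S
    swap
    · push Not at hedge
      exact ⟨fun _ => ⟨0, hn0⟩, fun S hS => absurd hS (hedge S)⟩
    obtain ⟨S0, hS0⟩ := hedge
    have hDpos : 0 < D := by
      have h2 : 1 < S0.card := by rw [hS0.2.1]; omega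
      obtain ⟨x, hx, y, hy, hxy⟩ := Finset.one_lt_card.mp h2
      rw [hD, ← hS0.2.2 x hx y hy hxy]
      exact dist_pos.mpr hxy
    have hbdd : Bornology.IsBounded (P : Set (EuclideanSpace ℝ (Fin d))) :=
      P.finite_toSet.isBounded
    have hdle : ∀ x ∈ P, ∀ y ∈ P, dist x y ≤ D := fun x hx y hy =>
      Metric.dist_le_diam_of_mem hbdd hx hy
    have hPne : P.Nonempty := by
      have h2 : 0 < S0.card := by rw [hS0.2.1]; omega
      obtain ⟨x, hx⟩ := Finset.card_pos.mp h2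
      exact ⟨x, hS0.1 hx⟩
    have hscale : ∀ x y : EuclideanSpace ℝ (Fin d), dist (D⁻¹ • x) (D⁻¹ • y) = D⁻¹ * dist x y := by
      intro x y
      rw [dist_smul₀, Real.norm_eq_abs, abs_of_pos (inv_pos.mpr hDpos)]
    obtain ⟨c, hc⟩ := exists_centre (P.image (fun x => D⁻¹ • x)) (hPne.image _) (by
      intro x hx y hy
      obtain ⟨x', hx', rfl⟩ := Finset.mem_image.mp hx
      obtain ⟨y', hy', rfl⟩ := Finset.mem_image.mp hy
      rw [hscale, inv_mul_le_iff₀ hDpos, mul_one]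
      exact hdle x' hx' y' hy')
    let φ : EuclideanSpace ℝ (Fin d) → EuclideanSpace ℝ (Fin d) := fun x => D⁻¹ • x - c
    have hφd : ∀ x y, dist (φ x) (φ y) = D⁻¹ * dist x y := by
      intro x y
      simp only [φ]
      rw [dist_sub_right, hscale]
    have hφi : Function.Injective φ := by
      intro x y hxy
      have h1 := hφd x y
      rw [hxy, dist_self] at h1
      have h2 : dist x y = 0 := by
        rcases mul_eq_zero.mp h1.symm with h3 | h3
        · exact absurd h3 (inv_pos.mpr hDpos).ne'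
        · exact h3
      exact dist_eq_zero.mp h2
    obtain ⟨f, hf⟩ := colouring hd (P.image φ) (by
      intro x hx
      obtain ⟨x', hx', rfl⟩ := Finset.mem_image.mp hx
      exact hc _ (Finset.mem_image_of_mem _ hx')) (by
      intro x hx y hy
      obtain ⟨x', hx', rfl⟩ := Finset.mem_image.mp hx
      obtain ⟨y', hy', rfl⟩ := Finset.mem_image.mp hy
      rw [hφd, inv_mul_le_iff₀ hDpos, mul_one]
      exact hdle x' hx' y' hy') k hk h ρ hh hρ0 hρ n hn0 hn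
    refine ⟨fun x => f (φ x), fun S hS hmono => ?_⟩
    refine hf (S.image φ) ⟨Finset.image_subset_image hS.1, ?_, ?_⟩ ?_
    · rw [Finset.card_image_of_injective _ hφi, hS.2.1]
    · intro x hx y hy hxy
      obtain ⟨x', hx', rfl⟩ := Finset.mem_image.mp hx
      obtain ⟨y', hy', rfl⟩ := Finset.mem_image.mp hy
      have hne : x' ≠ y' := fun h => hxy (by rw [h])
      rw [hφd, hS.2.2 x' hx' y' hy' hne]
      exact inv_mul_cancel₀ hDpos.ne'
    · intro x hx y hy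
      obtain ⟨x', hx', rfl⟩ := Finset.mem_image.mp hx
      obtain ⟨y', hy', rfl⟩ := Finset.mem_image.mp hy
      exact hmono x' hx' y' hy'
  have : chi (k + 1) P ≤ n := Nat.sInf_le hcol
  exact_mod_cast this

end Pool.Dia50c
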